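import Pool.Agent.N210.NK.Main

/-!
# The noncommutative Künneth standard conjecture fails in odd characteristic

Let `K` be a field of odd characteristic `p`, let `k = K(t)` and let `X` be the plane curve over `k`
with equation

`x^p + t y^p + t^2 z^p + t^2 (x^(p-1) y + y^(p-1) z + z^(p-1) x) = 0`.

The curve `X` is smooth, every finite extension of `k` over which `X` has a rational point has
degree divisible by `p`, and so all Euler characteristics of perfect complexes on `X` are divisible
by `p`. Hence, with coefficients in a field of characteristic `p`, all categorical traces of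
correspondences from `X` to itself vanish, while the supertrace of the even projector is `2`.
-/

set_option autoImplicit false

open CategoryTheory MonoidalCategory Pool.Agent.N210.NK

universe u₁ u₂ u₃ u₄ u₅

/-- Let `K` be a field of odd characteristic `p` and `k = K(t)`. The explicit plane curve above is
smooth, has points only over finite extensions of `k` of degree divisible by `p`, and neither its
even nor its odd noncommutative Künneth projector is algebraic, for all coefficient fields `F`. -/
theorem Pool.Agent.Results.MP_eadf0f_ag.OddCharacteristic.result (p : ℕ) [Fact p.Prime]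
    (h2 : p ≠ 2) (K : Type u₁) [Field K] [CharP K p] :
    ∃ hG : IsSmoothForm (RatFunc K) p (theForm p RatFunc.X),
      (∀ n ∈ pointDegrees (RatFunc K) (theForm p RatFunc.X), p ∣ n) ∧
      ∀ (F : Type u₂) [Field F] (E : Type u₃) [Field E] [Algebra (RatFunc K) E] [Algebra F E]
        (C : Type u₄) [Category.{u₅} C] [Preadditive C] [Linear F C] [MonoidalCategory C]
        [SymmetricCategory C] [RightRigidCategory C] (T : PlaneCurveMotives (RatFunc K) F E C),
        ¬ EvenAlgebraic T.HP (T.U p (theForm p RatFunc.X) hG) ∧
          ¬ OddAlgebraic T.HP (T.U p (theForm p RatFunc.X) hG) := by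
  have hX : (RatFunc.X : RatFunc K) = algebraMap (Polynomial K) (RatFunc K) Polynomial.X :=
    RatFunc.algebraMap_X.symm
  have hG : IsSmoothForm (RatFunc K) p (theForm p RatFunc.X) := by
    rw [hX]
    exact smooth_theForm h2 K (RatFunc K)
  have hdeg : ∀ n ∈ pointDegrees (RatFunc K) (theForm p RatFunc.X), p ∣ n := by
    rw [hX]
    exact dvd_pointDegrees h2 K (RatFunc K)
  have hchar : CharP (RatFunc K) p :=
    charP_of_injective_algebraMap (IsFractionRing.injective (Polynomial K) (RatFunc K)) p
  exact ⟨hG, hdeg, fun F _ E _ _ _ C _ _ _ _ _ _ T => main_general h2 dvd_rfl hG hdeg T⟩
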