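import Pool.Agent.N553.PP.Super

/-!
# The noncommutative Künneth standard conjecture: the pointwise principle

`C` is a `ℚ`-linear rigid symmetric monoidal category in which the endomorphisms of the unit object are
the rational numbers, for example the category `NChow(k)_ℚ` of noncommutative Chow motives over a field `k`
of characteristic zero, and `R` is a symmetric monoidal additive functor to finite dimensional super vector
spaces over a field `E`, for example `HP^±` for `E = k`, or `HP^± ⊗_k E` for a field `E` which contains `k`.
For a saturated dg category `A` and `M = U(A)` the endomorphisms of `M` are the elements of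
`K_0(A^op ⊗ A)_ℚ`, and the noncommutative correspondences with coefficients in a field `F` are the formal
combinations of these with coefficients in `F`. Here `F` is contained in `E` (if `F` contains `k` then
`E = F`, and if `k` contains `F` then `E = k`), and a combination `∑ c_i f_i` acts on `R(M)` by
`∑ c_i R(f_i)`.

It is proved that the following conditions are equivalent, and so the first one does not depend on `F`:

1. the conjecture `C_NC(A)` with coefficients in `F`: the projectors onto the even and the odd part of `R(M)`
   are algebraic;
2. it holds pointwise: for each even class `y` and each odd class `y'` in `R(M)` there is a combination `φ` of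
   correspondences with coefficients in `E`, which may depend on `y` and `y'`, with `φ(y) = y` and `φ(y') = 0`;
3. if `y` is even and `y'` odd and `l`, `l'` are linear forms on `R(M)` such that
   `l(R(f) y) + l'(R(f) y') = 0` for all correspondences `f`, that is, if the class `y ⊗ l + y' ⊗ l'` is orthogonal
   to all correspondences, then `l(y) = 0`;
4. every subspace `N` of `R(M)` which is stable under the correspondences is the sum of its even and its odd part;
5. the even and the odd part of `R(M)` have no common composition factor: every linear map `g : N → R(M)^- / L`
   which commutes with the correspondences is zero, where `N` is a stable subspace of `R(M)^+` and `L` a stable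
   subspace of `R(M)^-`.

The proof of `2 ⇒ 1` treats finitely many classes one after the other, first the odd and then the even ones
(`TH133.PW.separate_two` of the starting files); `3 ⇒ 2` is duality, `4 ⇒ 2` looks at the subspace generated by
`y + y'`, and `5 ⇒ 4` at the graph of a stable subspace. The descent from `E` to `ℚ` is `N164.NC.cplus_of_span`
(of `MP_eadf0f_ag.RankCriterion`, helper164).
-/

set_option autoImplicit false

open CategoryTheory Limits MonoidalCategory

namespace Pool.Agent.Results.MP_eadf0f_ag.PointwisePrinciple

open Pool.Agent.Y112.SR Pool.Agent.Y112.KD Pool.Agent.R484.NC Pool.Agent.N164.NC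
open Pool.Agent.N553.PP

universe v u w x

section Defs

variable {C : Type u} [Category.{v} C] [Preadditive C] [MonoidalCategory C] [SymmetricCategory C]
  {E : Type w} [Field E]

/-- The projector onto the even part of `R(M)` is algebraic with coefficients in `F`: it is a combination
of endomorphisms of `M` with coefficients in `F`. -/
def EvenAlgebraicOver (F : Type x) [Field F] [Algebra F E] (R : SuperRealisation C E) (M : C) : Prop :=
  ∃ (n : ℕ) (c : Fin n → F) (f : Fin n → (M ⟶ M)),
    (2 : E) • ∑ i, algebraMap F E (c i) • R.H.map (f i) = 𝟙 _ + R.par M

/-- The projector onto the odd part of `R(M)` is algebraic with coefficients in `F`. -/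
def OddAlgebraicOver (F : Type x) [Field F] [Algebra F E] (R : SuperRealisation C E) (M : C) : Prop :=
  ∃ (n : ℕ) (c : Fin n → F) (f : Fin n → (M ⟶ M)),
    (2 : E) • ∑ i, algebraMap F E (c i) • R.H.map (f i) = 𝟙 _ - R.par M

end Defs

/-- **The pointwise principle for the conjecture `C_NC`.** Here `parity R M` is the operator on `R(M)` which is `1` on
the even and `-1` on the odd part, and `endos R M` is the set of the operators `R(f)` for the endomorphisms `f` of `M`. -/
theorem result {C : Type u} [Category.{v} C] [Preadditive C] [Linear ℚ C] [MonoidalCategory C]
    [MonoidalPreadditive C] [MonoidalLinear ℚ C] [SymmetricCategory C] [RightRigidCategory C]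
    (hU : UnitQ C) {E : Type w} [Field E] (R : SuperRealisation C E) (M : C)
    (F : Type x) [Field F] [Algebra F E] :
    [EvenAlgebraicOver F R M ∧ OddAlgebraicOver F R M,
      InvPointwise (parity R M) (endos R M),
      InvDetects (parity R M) (endos R M),
      InvSplit (parity R M) (endos R M),
      NoCommon (parity R M) (endos R M)].TFAE := by
  have hc := R_charZero R
  have h2 : (2 : E) ≠ 0 := two_ne_zero
  have key : (EvenAlgebraicOver F R M ∧ OddAlgebraicOver F R M) ↔ R.CPlus M := by
    constructor
    · rintro ⟨⟨n, c, f, hf⟩, -⟩
      apply cplus_of_span R hU
      have h1 : ∑ i, algebraMap F E (c i) • R.H.map (f i) = Pool.Agent.Y112.SC.pe R M := by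
        rw [Pool.Agent.Y112.SC.pe, ← hf, smul_smul, inv_mul_cancel₀ h2, one_smul]
      have h3 : evp R M = ∑ i, algebraMap F E (c i) • op R (f i) := by
        rw [evp, ← h1, ModuleCat.hom_sum]
        rfl
      rw [h3]
      exact Submodule.sum_mem _ fun i _ => Submodule.smul_mem _ _ (Submodule.subset_span ⟨f i, rfl⟩)
    · rintro ⟨f, hf⟩
      refine ⟨⟨1, fun _ => 1, fun _ => f, ?_⟩, ⟨2, ![1, -1], ![𝟙 M, f], ?_⟩⟩
      · rw [Fin.sum_univ_one, map_one, one_smul, hf]
      · rw [Fin.sum_univ_two]
        simp only [Matrix.cons_val_zero, Matrix.cons_val_one, map_one, map_neg, one_smul, neg_smul,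
          CategoryTheory.Functor.map_id]
        rw [smul_add, smul_neg, hf, two_smul]
        abel
  rw [key]
  exact realisation_tfae hU R M

end Pool.Agent.Results.MP_eadf0f_ag.PointwisePrinciple
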