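import Pool.Agent.N164.NC.Rank

/-!
# The noncommutative Künneth standard conjecture: independence of the coefficients, and ranks of trace forms

`C` is a `ℚ`-linear rigid symmetric monoidal category in which the endomorphisms of the unit object are
the rational numbers, for example the category `NChow(k)_ℚ` of noncommutative Chow motives over a field `k`
of characteristic zero, and `R` is a symmetric monoidal additive functor to finite dimensional super vector
spaces over a field `E`, for example `HP^±` for `E = k`, or `HP^± ⊗_k E` for a field `E` which contains `k`.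
For a saturated dg category `A` and `M = U(A)` the endomorphisms of `M` are the elements of
`K_0(A^op ⊗ A)_ℚ`, and the noncommutative correspondences with coefficients in a field `F` are the formal
combinations of these with coefficients in `F`. Here `F` is contained in `E` (if `F` contains `k` then
`E = F`, and if `k` contains `F` then `E = k`), and a combination `∑ c_i f_i` acts on `R(M)` by
`∑ c_i R(f_i)`.

Let `tr_+(f)` and `tr_-(f)` be the traces of `f` on the even and the odd part of `R(M)`, elements of `E`. Let
`r_+` and `r_-` be the ranks of the two forms `(f, g) ↦ tr_+(f ∘ g)` and `(f, g) ↦ tr_-(f ∘ g)` on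
`K_0(A^op ⊗ A)_ℚ`, with values in `E`.

1. The dimension of `K_0(A^op ⊗ A)_ℚ` modulo numerical equivalence is at most `r_+ + r_-`.
2. For every field `F` contained in `E` the conjecture `C_NC(A)` with coefficients in `F` (the projectors
   onto the even and the odd part of `R(M)` are algebraic) is equivalent to the equality of this dimension
   with `r_+ + r_-`. So it does not depend on `F`: if the projectors are combinations of correspondences with
   arbitrary coefficients in `E`, then they are given by rational correspondences.
3. It is also equivalent to the existence of a combination `∑ c_i f_i` with coefficients in `E` such that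
   `∑ c_i tr_+(f_i ∘ g) = tr_+(g)` and `∑ c_i tr_-(f_i ∘ g) = 0` for all `g` in `K_0(A^op ⊗ A)_ℚ`.

The proof: if the rank of the supertrace form, which is the dimension in 1, is the sum of the ranks, then
the two families of functionals can be prescribed independently, and there is a combination `a` as in 3. On
the even part all traces of powers of `1 - a` are zero, on the odd part those of `a`, and so
`1 - (1 - a ^ N) ^ N` is the projector for large `N`. The descent of a central idempotent from `E` to `ℚ` is
`TH133.PW.central_idem_mem` of the starting files.
-/

set_option autoImplicit false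

open CategoryTheory Limits MonoidalCategory

namespace Pool.Agent.Results.MP_eadf0f_ag.RankCriterion

open Pool.Agent.Y112.SR Pool.Agent.Y112.KD Pool.Agent.R484.NC Pool.Agent.N164.NC

universe v u w x

section Defs

variable {C : Type u} [Category.{v} C] [Preadditive C] [MonoidalCategory C] [SymmetricCategory C]
  {E : Type w} [Field E]

/-- The projector onto the even part of `R(M)` is algebraic with coefficients in `F`: it is a combination
of endomorphisms of `M` with coefficients in `F`. -/
def EvenAlgebraicOver (F : Type x) [Field F] [Algebra F E] (R : SuperRealisation C E) (M : C) : Prop :=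
  ∃ (n : ℕ) (c : Fin n → F) (f : Fin n → (M ⟶ M)),
    (2 : E) • ∑ i, algebraMap F E (c i) • R.H.map (f i) = 𝟙 _ + R.par M

/-- The projector onto the odd part of `R(M)` is algebraic with coefficients in `F`. -/
def OddAlgebraicOver (F : Type x) [Field F] [Algebra F E] (R : SuperRealisation C E) (M : C) : Prop :=
  ∃ (n : ℕ) (c : Fin n → F) (f : Fin n → (M ⟶ M)),
    (2 : E) • ∑ i, algebraMap F E (c i) • R.H.map (f i) = 𝟙 _ - R.par M

end Defs

/-- **The conjecture `C_NC` in terms of the ranks of two trace forms.** -/
theorem result {C : Type u} [Category.{v} C] [Preadditive C] [Linear ℚ C] [MonoidalCategory C]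
    [MonoidalPreadditive C] [MonoidalLinear ℚ C] [SymmetricCategory C] [RightRigidCategory C]
    (hU : UnitQ C) {E : Type w} [Field E] (R : SuperRealisation C E) (M : C) :
    numDim hU M ≤ rk (fun f g : M ⟶ M => evenTrace R (f ≫ g)) +
      rk (fun f g : M ⟶ M => oddTrace R (f ≫ g)) ∧
    (∀ (F : Type x) [Field F] [Algebra F E],
      (EvenAlgebraicOver F R M ∧ OddAlgebraicOver F R M) ↔
        numDim hU M = rk (fun f g : M ⟶ M => evenTrace R (f ≫ g)) +
          rk (fun f g : M ⟶ M => oddTrace R (f ≫ g))) ∧
    (∀ (F : Type x) [Field F] [Algebra F E],
      (EvenAlgebraicOver F R M ∧ OddAlgebraicOver F R M) ↔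
        (fun g : M ⟶ M => (evenTrace R g, (0 : E))) ∈
          Submodule.span E (Set.range fun f g : M ⟶ M =>
            (evenTrace R (f ≫ g), oddTrace R (f ≫ g)))) := by
  have hc := R_charZero R
  have h2 : (2 : E) ≠ 0 := two_ne_zero
  have key : ∀ (F : Type x) [Field F] [Algebra F E],
      (EvenAlgebraicOver F R M ∧ OddAlgebraicOver F R M) ↔ R.CPlus M := by
    intro F _ _
    constructor
    · rintro ⟨⟨n, c, f, hf⟩, -⟩
      apply cplus_of_span R hU
      have h1 : ∑ i, algebraMap F E (c i) • R.H.map (f i) = Pool.Agent.Y112.SC.pe R M := by
        rw [Pool.Agent.Y112.SC.pe, ← hf, smul_smul, inv_mul_cancel₀ h2, one_smul]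
      have h3 : evp R M = ∑ i, algebraMap F E (c i) • op R (f i) := by
        rw [evp, ← h1, ModuleCat.hom_sum]
        rfl
      rw [h3]
      exact Submodule.sum_mem _ fun i _ => Submodule.smul_mem _ _ (Submodule.subset_span ⟨f i, rfl⟩)
    · rintro ⟨f, hf⟩
      refine ⟨⟨1, fun _ => 1, fun _ => f, ?_⟩, ⟨2, ![1, -1], ![𝟙 M, f], ?_⟩⟩
      · rw [Fin.sum_univ_one, map_one, one_smul, hf]
      · rw [Fin.sum_univ_two]
        simp only [Matrix.cons_val_zero, Matrix.cons_val_one, map_one, map_neg, one_smul, neg_smul,
          CategoryTheory.Functor.map_id]
        rw [smul_add, smul_neg, hf, two_smul]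
        abel
  exact ⟨(rank_criterion R hU M).1, fun F _ _ => (key F).trans (rank_criterion R hU M).2.symm,
    fun F _ _ => (key F).trans (span_criterion R hU M)⟩

end Pool.Agent.Results.MP_eadf0f_ag.RankCriterion
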